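import Pool.Agent.MP_781439_al.Glue
import Pool.Agent.MP_781439_al.Defs
import Pool.Agent.MP_781439_al.Convex
import Pool.Agent.MP_781439_al.Malnormal
import Pool.Agent.MP_781439_al.Negative

-- part MP_781439_al.Limit
section

/-!
Passing to the limit of a generic chain of conditions.
-/

namespace Pool.Agent.MP_781439_al

open Cond

lemma exists_generic_chain {P ι : Type} [Preorder P] [Countable ι] [Nonempty ι] (p0 : P)
    (D : ι → P → Prop) (hD : ∀ i p, ∃ q, p ≤ q ∧ D i q) :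
    ∃ s : ℕ → P, Monotone s ∧ ∀ i, ∃ n, D i (s n) := by
  obtain ⟨e, he⟩ := exists_surjective_nat ι
  choose f hf using hD
  let s : ℕ → P := fun n => Nat.rec p0 (fun n p => f (e n) p) n
  refine ⟨s, monotone_nat_of_le_succ (fun n => (hf (e n) (s n)).1), fun i => ?_⟩
  obtain ⟨n, rfl⟩ := he i
  exact ⟨n + 1, (hf (e n) (s n)).2⟩

/-- Transfer from increasing tuples in a countable dense order to finite subsets of `ℚ`. -/
lemma hasAction_of_tuples {G U : Type} [Group G] [LinearOrder U] [Countable U] [DenselyOrdered U]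
    [NoMinOrder U] [NoMaxOrder U] [Nonempty U] (k : ℕ) (θ : G →* Equiv.Perm U)
    (hmono : ∀ g, StrictMono (θ g))
    (htrans : ∀ A B : Fin k → U, StrictMono A → StrictMono B → ∃ g, ∀ i, θ g (A i) = B i)
    (hfree : ∀ (A : Fin k → U) (g : G), StrictMono A → (∀ i, θ g (A i) = A i) → g = 1) :
    HasSharplyTransitiveAction G k := by
  obtain ⟨e⟩ := Order.iso_of_countable_dense U ℚ
  let θ' : G →* Equiv.Perm ℚ := (e.toEquiv.permCongrHom : Equiv.Perm U →* Equiv.Perm ℚ).comp θ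
  have hθ' : ∀ g x, θ' g x = e (θ g (e.symm x)) := fun g x => rfl
  have hmono' : ∀ g, StrictMono (θ' g) := fun g a b hab => by
    rw [hθ', hθ']
    exact e.strictMono (hmono g (e.symm.strictMono hab))
  refine ⟨θ', hmono', fun A B hA hB => ?_⟩
  have hchar : ∀ g, A.image (θ' g) = B ↔ ∀ i, θ' g (A.orderEmbOfFin hA i) = B.orderEmbOfFin hB i := by
    intro g
    constructor
    · intro h
      have := Finset.orderEmbOfFin_unique hB (f := fun i => θ' g (A.orderEmbOfFin hA i))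
        (fun i => by rw [← h]; exact Finset.mem_image_of_mem _ (A.orderEmbOfFin_mem hA i))
        ((hmono' g).comp (A.orderEmbOfFin hA).strictMono)
      exact fun i => congrFun this i
    · intro h
      apply Finset.coe_injective
      rw [Finset.coe_image, ← Finset.range_orderEmbOfFin A hA, ← Finset.range_orderEmbOfFin B hB,
        ← Set.range_comp]
      congr 1
      exact funext h
  have sA : StrictMono (fun i => e.symm (A.orderEmbOfFin hA i)) :=
    e.symm.strictMono.comp (A.orderEmbOfFin hA).strictMono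
  have sB : StrictMono (fun i => e.symm (B.orderEmbOfFin hB i)) :=
    e.symm.strictMono.comp (B.orderEmbOfFin hB).strictMono
  obtain ⟨g, hg⟩ := htrans _ _ sA sB
  refine ⟨g, (hchar g).2 (fun i => by rw [hθ', hg i]; simp), fun g' hg' => ?_⟩
  have h1 := (hchar g').1 hg'
  have h2 : g⁻¹ * g' = 1 := hfree _ _ sA (fun i => by
    rw [map_mul, Equiv.Perm.mul_apply, map_inv, Equiv.Perm.inv_eq_iff_eq, hg i]
    apply e.injective
    rw [← hθ', h1 i]; simp)
  exact (inv_mul_eq_one.1 h2).symm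

variable {H : Type} [Group H] {G : Type} [Group G]

/-- The empty condition. -/
def Cond.empty (X : Setup H) : Cond X where
  J := ∅
  r := fun _ _ => False
  c := fun _ => 0
  T := fun _ _ => False
  r_supp := fun h => h.elim
  r_irrefl := fun _ h => h
  r_trans := fun h _ => h
  r_tri := fun _ _ h => by simp at h
  r_smul := fun _ _ _ h => h
  r_lev := fun h => h.elim
  T_supp := fun h => h.elim
  T_smul := fun _ _ _ h => h
  T_mono := fun h => h.elim
  T_bdd := ⟨0, fun _ _ h => h.elim⟩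

theorem hasAction_of_setup [Countable H] (X : Setup H) (ι : H →* G) (τ : G)
    (hτ : ∀ l ∈ X.L, Commute τ (ι l))
    (hgen : ∀ P : G → Prop, (∀ h, P (ι h)) → P τ → (∀ a b, P a → P b → P (a * b)) →
      (∀ a, P a → P a⁻¹) → ∀ g, P g)
    (huniv : ∀ t : Equiv.Perm (Pt H), (∀ l ∈ X.L, ∀ u, t (l • u) = l • t u) →
      ∃ θ : G →* Equiv.Perm (Pt H), (∀ h u, θ (ι h) u = h • u) ∧ θ τ = t)
    (k : ℕ) (hk : 0 < k) : HasSharplyTransitiveAction G k := by
  classical
  let P := {p : Cond X // ∃ ψ : (Fin k → Pt H) → G, p.Pot ι τ ψ}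
  let p0 : P := ⟨Cond.empty X, fun m => ι (m ⟨0, hk⟩).g, fun h m => by simp,
    fun m m' h => (h.2 ⟨0, hk⟩).elim⟩
  let Task := Pt H ⊕ Pt H ⊕ (Pt H × Pt H) ⊕ ((Fin k → Pt H) × (Fin k → Pt H))
  have : Nonempty Task := ⟨Sum.inl ⟨1, 0⟩⟩
  let D : Task → P → Prop := fun t p => match t with
    | Sum.inl x => ∃ y, p.1.T x y
    | Sum.inr (Sum.inl x) => ∃ y, p.1.T y x
    | Sum.inr (Sum.inr (Sum.inl x)) => x.1.i ∈ p.1.J ∧ x.2.i ∈ p.1.J ∧
        (p.1.r x.1 x.2 → ∃ z, p.1.r x.1 z ∧ p.1.r z x.2)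
    | Sum.inr (Sum.inr (Sum.inr x)) => (∀ i, (x.1 i).i ∈ p.1.J) ∧ (∀ i, (x.2 i).i ∈ p.1.J) ∧
        (p.1.Inc x.1 → p.1.Inc x.2 → p.1.Conn x.1 x.2)
  obtain ⟨s, hs, hD⟩ := exists_generic_chain p0 D (by
    rintro (x | x | ⟨x, y⟩ | ⟨A, B⟩) ⟨p, ψ, hψ⟩
    · obtain ⟨q, h1, h2, h3⟩ := p.add_index x.i
      obtain ⟨q', h4, h5, h6⟩ := dom_ext ι τ hτ q (hψ.of_T_eq h1 h3) x h2
      exact ⟨⟨q', h6⟩, h1.trans h4, h5⟩
    · obtain ⟨q, h1, h2, h3⟩ := p.add_index x.i
      obtain ⟨q', h4, h5, h6⟩ := ran_ext ι τ hτ q (hψ.of_T_eq h1 h3) x h2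
      exact ⟨⟨q', h6⟩, h1.trans h4, h5⟩
    · obtain ⟨q, h1, h2, h3⟩ := p.add_indices {x.i, y.i}
      have hx : x.i ∈ q.J := h2 (by simp)
      have hy : y.i ∈ q.J := h2 (by simp)
      by_cases hr : q.r x y
      · obtain ⟨q', h4, h5, h6⟩ := q.fill_gap hr
        exact ⟨⟨q', ψ, (hψ.of_T_eq h1 h3).of_T_eq h4 h5⟩, h1.trans h4, le_J h4 hx, le_J h4 hy,
          fun _ => h6⟩
      · exact ⟨⟨q, ψ, hψ.of_T_eq h1 h3⟩, h1, hx, hy, fun h => (hr h).elim⟩
    · obtain ⟨q, h1, h2, h3⟩ := p.add_indices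
        (Finset.univ.image (fun i => (A i).i) ∪ Finset.univ.image (fun i => (B i).i))
      have hA : ∀ i, (A i).i ∈ q.J := fun i => h2 (by simp)
      have hB : ∀ i, (B i).i ∈ q.J := fun i => h2 (by simp)
      by_cases hr : q.Inc A ∧ q.Inc B
      · obtain ⟨q', h4, h5, h6⟩ := connect ι τ hτ q (hψ.of_T_eq h1 h3) A B hr.1 hr.2
        exact ⟨⟨q', h6⟩, h1.trans h4, fun i => le_J h4 (hA i), fun i => le_J h4 (hB i),
          fun _ _ => h5⟩
      · exact ⟨⟨q, ψ, hψ.of_T_eq h1 h3⟩, h1, hA, hB, fun a b => (hr ⟨a, b⟩).elim⟩)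
  let p : ℕ → Cond X := fun n => (s n).1
  have hp : ∀ {m n}, m ≤ n → p m ≤ p n := fun h => hs h
  have hdom : ∀ x, ∃ n y, (p n).T x y := fun x => hD (Sum.inl x)
  have hran : ∀ x, ∃ n y, (p n).T y x := fun x => hD (Sum.inr (Sum.inl x))
  have hsupp : ∀ x : Pt H, ∃ n, x.i ∈ (p n).J := fun x => by
    obtain ⟨n, y, h⟩ := hdom x
    exact ⟨n, ((p n).T_supp h).1⟩
  let R : Pt H → Pt H → Prop := fun x y => ∃ n, (p n).r x y
  have hR : ∀ {n} {x y : Pt H}, x.i ∈ (p n).J → y.i ∈ (p n).J → R x y → (p n).r x y := by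
    rintro n x y hx hy ⟨m, h⟩
    exact r_of_le (hp (le_max_left n m)) hx hy (le_r (hp (le_max_right n m)) h)
  have hsto : IsStrictTotalOrder (Pt H) R :=
    { trichotomous := by
        intro x y h1 h2
        obtain ⟨n, hn⟩ := hsupp x
        obtain ⟨m, hm⟩ := hsupp y
        rcases (p (max n m)).r_tri x y (le_J (hp (le_max_left n m)) hn)
          (le_J (hp (le_max_right n m)) hm) with h | h | h
        · exact (h1 ⟨_, h⟩).elim
        · exact h
        · exact (h2 ⟨_, h⟩).elim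
      irrefl := by
        rintro x ⟨n, h⟩
        exact (p n).r_irrefl x h
      trans := by
        rintro x y z ⟨n, h⟩ ⟨m, h'⟩
        exact ⟨max n m, (p _).r_trans
          (le_r (hp (le_max_left n m)) h) (le_r (hp (le_max_right n m)) h')⟩ }
  let _ : LinearOrder (Pt H) := linearOrderOfSTO R
  have hlt : ∀ x y : Pt H, x < y ↔ R x y := fun _ _ => Iff.rfl
  have : DenselyOrdered (Pt H) := ⟨fun x y hxy => by
    obtain ⟨n, h1, h2, h3⟩ := hD (Sum.inr (Sum.inr (Sum.inl (x, y))))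
    obtain ⟨z, h4, h5⟩ := h3 (hR h1 h2 hxy)
    exact ⟨z, ⟨n, h4⟩, ⟨n, h5⟩⟩⟩
  obtain ⟨κ, hκ, -⟩ := X.mal 1
  have hup : ∀ x : Pt H, x < κ • x := by
    intro x
    obtain ⟨n, hn⟩ := hsupp x
    refine ⟨n, (p n).r_of_lev hn hn ?_⟩
    rw [Cond.lev, Cond.lev, X.lev_smul]; linarith
  have : NoMaxOrder (Pt H) := ⟨fun x => ⟨_, hup x⟩⟩
  have : NoMinOrder (Pt H) := ⟨fun x => ⟨κ⁻¹ • x, by simpa using hup (κ⁻¹ • x)⟩⟩
  have : Nonempty (Pt H) := ⟨⟨1, 0⟩⟩
  choose nf f hf using hdom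
  have hf' : ∀ {n x y}, (p n).T x y → f x = y := by
    intro n x y h
    exact (p (max n (nf x))).T_fun (le_T (hp (le_max_right _ _)) (hf x))
      (le_T (hp (le_max_left _ _)) h)
  have hfmono : StrictMono f := by
    rintro x y ⟨n, h⟩
    let N := max n (max (nf x) (nf y))
    refine ⟨N, ((p N).T_mono (le_T (hp (by omega)) (hf x)) (le_T (hp (by omega)) (hf y))).1
      (le_r (hp (by omega)) h)⟩
  have hfsurj : Function.Surjective f := by
    intro x
    obtain ⟨n, y, h⟩ := hran x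
    exact ⟨y, hf' h⟩
  let t : Equiv.Perm (Pt H) := Equiv.ofBijective f ⟨hfmono.injective, hfsurj⟩
  obtain ⟨θ, hθ1, hθ2⟩ := huniv t (fun l hl u => hf' ((p _).T_smul hl (hf u)))
  have hθτ : ∀ u, θ τ u = f u := fun u => by rw [hθ2]; rfl
  have hmono : ∀ g, StrictMono (θ g) := by
    refine hgen _ ?_ ?_ ?_ ?_
    · rintro h x y ⟨n, hxy⟩
      rw [hθ1, hθ1]
      exact ⟨n, (p n).r_smul h hxy⟩
    · intro x y hxy
      rw [hθτ, hθτ]; exact hfmono hxy
    · intro a b ha hb
      rw [map_mul]; exact ha.comp hb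
    · intro a ha x y hxy
      apply ha.lt_iff_lt.1
      rw [map_inv]; simpa using hxy
  have hInc : ∀ m : Fin k → Pt H, StrictMono m → ∀ n, (∀ i, (m i).i ∈ (p n).J) → (p n).Inc m :=
    fun m hm n hn => ⟨hn, fun i j hij => hR (hn i) (hn j) (hm hij)⟩
  refine hasAction_of_tuples k θ hmono ?_ ?_
  · intro A B hA hB
    obtain ⟨n, h1, h2, h3⟩ := hD (Sum.inr (Sum.inr (Sum.inr (A, B))))
    have hc : (p n).Conn A B := h3 (hInc A hA n h1) (hInc B hB n h2)
    clear h1 h2 h3 hA hB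
    induction hc with
    | rel x y hxy =>
      rcases hxy with ⟨h, rfl⟩ | h
      · exact ⟨ι h, fun i => hθ1 h _⟩
      · exact ⟨τ, fun i => by rw [hθτ]; exact hf' (h.2 i)⟩
    | refl x => exact ⟨1, fun i => by simp⟩
    | symm x y _ ih =>
      obtain ⟨g, hg⟩ := ih
      exact ⟨g⁻¹, fun i => by rw [map_inv, Equiv.Perm.inv_eq_iff_eq, hg i]⟩
    | trans x y z _ _ ih1 ih2 =>
      obtain ⟨g, hg⟩ := ih1
      obtain ⟨g', hg'⟩ := ih2
      exact ⟨g' * g, fun i => by rw [map_mul, Equiv.Perm.mul_apply, hg i, hg' i]⟩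
  · have key : ∀ g : G, ∀ m : Fin k → Pt H, StrictMono m → ∃ n, ∀ n' ≥ n,
        ∀ ψ : (Fin k → Pt H) → G, (p n').Pot ι τ ψ → ψ (fun i => θ g (m i)) = g * ψ m := by
      refine hgen _ ?_ ?_ ?_ ?_
      · intro h m _
        refine ⟨0, fun n' _ ψ hψ => ?_⟩
        simp only [hθ1]
        exact hψ.1 h m
      · intro m hm
        obtain ⟨n, hn⟩ := (Set.finite_range (fun i => nf (m i))).bddAbove
        refine ⟨n, fun n' hn' ψ hψ => ?_⟩
        have hT : ∀ i, (p n').T (m i) (f (m i)) :=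
          fun i => le_T (hp ((hn ⟨i, rfl⟩).trans hn')) (hf (m i))
        simp only [hθτ]
        exact hψ.2 m _ ⟨hInc m hm n' (fun i => ((p n').T_supp (hT i)).1), hT⟩
      · intro a b ha hb m hm
        obtain ⟨n1, h1⟩ := hb m hm
        obtain ⟨n2, h2⟩ := ha (fun i => θ b (m i)) ((hmono b).comp hm)
        refine ⟨max n1 n2, fun n' hn' ψ hψ => ?_⟩
        simp only [map_mul, Equiv.Perm.mul_apply]
        rw [h2 n' (le_of_max_le_right hn') ψ hψ, h1 n' (le_of_max_le_left hn') ψ hψ, mul_assoc]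
      · intro a ha m hm
        obtain ⟨n, h1⟩ := ha (fun i => θ a⁻¹ (m i)) ((hmono a⁻¹).comp hm)
        refine ⟨n, fun n' hn' ψ hψ => ?_⟩
        have := h1 n' hn' ψ hψ
        simp only [map_inv, Equiv.Perm.coe_inv, Equiv.apply_symm_apply] at this ⊢
        rw [eq_inv_mul_iff_mul_eq]
        exact this.symm
    intro A g hA hg
    obtain ⟨n, hn⟩ := key g A hA
    obtain ⟨ψ, hψ⟩ := (s n).2
    have := hn n le_rfl ψ hψ
    simp only [hg] at this
    exact mul_eq_right.1 this.symm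

end Pool.Agent.MP_781439_al

end

-- part MP_781439_al.Positive
section

/-!
Existence of sharply `k`-transitive actions for right-angled Artin groups.
-/

namespace Pool.Agent.MP_781439_al

variable {V : Type}

lemma countable_raag [Countable V] (Γ : SimpleGraph V) : Countable (RAAG Γ) := by
  have : Countable (FreeGroup V) := Quot.mk_surjective.countable
  exact (PresentedGroup.mk_surjective _).countable

theorem hasAction_of_no_common_neighbour [Countable V] (Γ : SimpleGraph V)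
    (hc : ¬ IsCyclic (RAAG Γ)) (hp : ¬ IsProductOfInfinite (RAAG Γ))
    (F : Finset V) (hF : ∀ u, ∃ w ∈ F, ¬ Γ.Adj u w) (k : ℕ) (hk : 1 ≤ k) :
    HasSharplyTransitiveAction (RAAG Γ) k := by
  classical
  have : Nontrivial V := by
    by_contra h
    rw [not_nontrivial_iff_subsingleton] at h
    exact hc isCyclic_of_subsingleton
  have hnj : ∀ S : Set V, S.Nonempty → Sᶜ.Nonempty → ∃ s ∈ S, ∃ t ∈ Sᶜ, ¬ Γ.Adj s t := by
    intro S h1 h2
    by_contra h
    push Not at h
    exact hp (isProduct_of_join h1 h2 h)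
  obtain ⟨v⟩ : Nonempty V := inferInstance
  have := countable_raag (del Γ v)
  obtain ⟨O, ordO, ω, hω1, hω2⟩ := exists_coset_order (del Γ v) (cn Γ v {v})
  obtain ⟨O', ordO', ω', hω1', hω2'⟩ := exists_coset_order (del Γ v) ∅
  let X : Setup (RAAG (del Γ v)) :=
    { L := par (del Γ v) (cn Γ v {v})
      ρ := retr (del Γ v) (cn Γ v {v})
      ρ_mem := retr_mem _
      ρ_of_mem := fun _ hl => retr_of_mem hl
      φ := expo (del Γ v) (cn Γ v {v})ᶜ
      φ_mul := expo_mul _
      φ_L := fun _ hl => expo_of_mem_par (fun u hu => Set.notMem_compl_iff.2 hu) hl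
      O := O
      ordO := ordO
      ω := ω
      ω_mul := hω1
      ω_eq := hω2
      O' := O'
      ordO' := ordO'
      ω' := ω'
      ω'_mul := hω1'
      ω'_inj := fun a b h => by
        have := (hω2' a b).1 h
        rw [par_empty, Subgroup.mem_bot] at this
        exact inv_mul_eq_one.1 this
      mal := fun N => exists_mal hnj F hF v N }
  let ι : RAAG (del Γ v) →* RAAG Γ := lift (fun u => gen Γ u.1) (fun _ _ h => gen_comm h)
  refine hasAction_of_setup X ι (gen Γ v) ?_ ?_ ?_ k hk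
  · intro l hl
    refine par_induction (P := fun l => Commute (gen Γ v) (ι l)) ?_ ?_ ?_ ?_ hl
    · simp
    · intro u hu
      simp only [ι, lift_gen]
      exact gen_comm (hu v rfl)
    · intro a b ha hb; rw [map_mul]; exact ha.mul_right hb
    · intro a ha; rw [map_inv]; exact ha.inv_right
  · intro P h1 h2 h3 h4 g
    refine raag_induction (P := P) (by simpa using h1 1) (fun u => ?_) h3 h4 g
    by_cases hu : u = v
    · rwa [hu]
    · simpa [ι] using h1 (gen _ ⟨u, hu⟩)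
  · intro t ht
    let α : RAAG (del Γ v) →* Equiv.Perm (Pt (RAAG (del Γ v))) := MulAction.toPermHom _ _
    let f : V → Equiv.Perm (Pt (RAAG (del Γ v))) := fun u =>
      if h : u = v then t else α (gen _ ⟨u, h⟩)
    have hv : ∀ u, Γ.Adj v u → Commute t (f u) := by
      intro u hu
      have hne : u ≠ v := hu.ne.symm
      simp only [f, hne, dif_neg, not_false_eq_true]
      apply Equiv.ext
      intro x
      exact ht _ (gen_mem_par (by rintro w rfl; exact hu)) x
    have hf : ∀ u w, Γ.Adj u w → Commute (f u) (f w) := by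
      intro u w huw
      by_cases hu : u = v
      · subst hu
        have : f u = t := by simp [f]
        rw [this]; exact hv w huw
      · by_cases hw : w = v
        · subst hw
          have : f w = t := by simp [f]
          rw [this]; exact (hv u huw.symm).symm
        · simp only [f, hu, hw, dif_neg, not_false_eq_true]
          exact (gen_comm (Γ := del Γ v) (u := ⟨u, hu⟩) (v := ⟨w, hw⟩) huw).map α
    refine ⟨lift f hf, fun h u => ?_, by simp [f]⟩
    have : (lift f hf).comp ι = α := hom_ext (fun w => by simp [ι, f, w.2])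
    have h2 := DFunLike.congr_fun this h
    rw [MonoidHom.comp_apply] at h2
    rw [h2]; rfl

/-- On an infinite graph the group has a dense left order. -/
theorem hasAction_one_of_infinite [Countable V] [Infinite V] (Γ : SimpleGraph V) :
    HasSharplyTransitiveAction (RAAG Γ) 1 := by
  obtain ⟨O, ordO, ω, hω1, hω2⟩ := exists_coset_order Γ ∅
  have hinj : Function.Injective ω := fun a b h => by
    have := (hω2 a b).1 h
    rw [par_empty, Subgroup.mem_bot] at this
    exact inv_mul_eq_one.1 this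
  obtain ⟨enc, henc⟩ := exists_injective_nat V
  let S : ℕ → Set V := fun n => {v | enc v < n}
  let Ω : RAAG Γ → Lex (ℕ → O) := fun g => toLex (fun n => ω (retr Γ (S n) g))
  have hbig : ∀ g : RAAG Γ, ∃ n, ∀ m ≥ n, retr Γ (S m) g = g := by
    intro g
    obtain ⟨F, hF⟩ := exists_finset_par g
    refine ⟨F.sup enc + 1, fun m hm => retr_of_mem (par_mono (fun v hv => ?_) hF)⟩
    have : enc v ≤ F.sup enc := Finset.le_sup hv
    change enc v < m
    omega
  have hΩ : Function.Injective Ω := by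
    intro a b h
    obtain ⟨n, hn⟩ := hbig a
    obtain ⟨m, hm⟩ := hbig b
    have := hinj (congrFun (toLex.injective h) (max n m))
    rwa [hn _ (le_max_left _ _), hm _ (le_max_right _ _)] at this
  let _ : LinearOrder (RAAG Γ) := LinearOrder.lift' Ω hΩ
  have hlt : ∀ a b : RAAG Γ, a < b ↔ ∃ n, (∀ j < n, ω (retr Γ (S j) a) = ω (retr Γ (S j) b)) ∧
      ω (retr Γ (S n) a) < ω (retr Γ (S n) b) := fun _ _ => Iff.rfl
  have hmul : ∀ h a b : RAAG Γ, a < b → h * a < h * b := by
    intro h a b hab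
    obtain ⟨n, h1, h2⟩ := (hlt a b).1 hab
    refine (hlt _ _).2 ⟨n, fun j hj => ?_, ?_⟩
    · rw [map_mul, map_mul, hinj (h1 j hj)]
    · rw [map_mul, map_mul]; exact hω1 _ _ _ h2
  have hsmall : ∀ n, ∃ c : RAAG Γ, 1 < c ∧ ∀ j ≤ n, retr Γ (S j) c = 1 := by
    intro n
    have hfin : (S n).Finite := (Set.finite_lt_nat n).preimage henc.injOn
    obtain ⟨v, hv⟩ := hfin.infinite_compl.nonempty
    have h1 : ∀ j ≤ n, retr Γ (S j) (gen Γ v) = 1 := fun j hj =>
      retr_gen_of_notMem (fun h => hv (lt_of_lt_of_le h hj))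
    rcases lt_or_gt_of_ne (gen_ne_one (Γ := Γ) v) with h | h
    · refine ⟨(gen Γ v)⁻¹, by simpa using hmul (gen Γ v)⁻¹ _ _ h, fun j hj => ?_⟩
      rw [map_inv, h1 j hj, inv_one]
    · exact ⟨gen Γ v, h, h1⟩
  have : DenselyOrdered (RAAG Γ) := ⟨fun a b hab => by
    obtain ⟨n, h1, h2⟩ := (hlt a b).1 hab
    obtain ⟨c, hc1, hc2⟩ := hsmall n
    refine ⟨a * c, by simpa using hmul a _ _ hc1, (hlt _ _).2 ⟨n, fun j hj => ?_, ?_⟩⟩
    · rw [map_mul, hc2 j hj.le, mul_one]; exact h1 j hj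
    · rw [map_mul, hc2 n le_rfl, mul_one]; exact h2⟩
  obtain ⟨c, hc, -⟩ := hsmall 0
  have hup : ∀ a : RAAG Γ, a < a * c := fun a => by simpa using hmul a _ _ hc
  have : NoMaxOrder (RAAG Γ) := ⟨fun a => ⟨_, hup a⟩⟩
  have : NoMinOrder (RAAG Γ) := ⟨fun a => ⟨a * c⁻¹, by simpa using hup (a * c⁻¹)⟩⟩
  have := countable_raag Γ
  refine hasAction_of_tuples 1 (MulAction.toPermHom (RAAG Γ) (RAAG Γ))
    (fun g a b hab => hmul g a b hab) (fun A B _ _ => ⟨B 0 * (A 0)⁻¹, fun i => ?_⟩)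
    (fun A g _ h => ?_)
  · rw [Subsingleton.elim i 0]; simp
  · simpa using h 0

theorem classification [Countable V] (Γ : SimpleGraph V)
    (hc : ¬ IsCyclic (RAAG Γ)) (hp : ¬ IsProductOfInfinite (RAAG Γ)) (k : ℕ) (hk : 1 ≤ k) :
    HasSharplyTransitiveAction (RAAG Γ) k ↔
      (k = 1 ∨ ∃ F : Finset V, ∀ u, ∃ w ∈ F, ¬ Γ.Adj u w) := by
  constructor
  · intro h
    by_contra hcon
    push Not at hcon
    exact no_action_of_common_neighbours Γ hcon.2 (by omega) h
  · rintro (rfl | ⟨F, hF⟩)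
    · cases finite_or_infinite V with
      | inl hV =>
        have := Fintype.ofFinite V
        exact hasAction_of_no_common_neighbour Γ hc hp Finset.univ
          (fun u => ⟨u, Finset.mem_univ u, Γ.irrefl⟩) 1 le_rfl
      | inr hV => exact hasAction_one_of_infinite Γ
    · exact hasAction_of_no_common_neighbour Γ hc hp F hF k hk

/-- The case of finite graphs. -/
theorem finite_graphs [Finite V] (Γ : SimpleGraph V)
    (hc : ¬ IsCyclic (RAAG Γ)) (hp : ¬ IsProductOfInfinite (RAAG Γ)) (k : ℕ) (hk : 1 ≤ k) :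
    HasSharplyTransitiveAction (RAAG Γ) k := by
  have := Fintype.ofFinite V
  exact hasAction_of_no_common_neighbour Γ hc hp Finset.univ
    (fun u => ⟨u, Finset.mem_univ u, Γ.irrefl⟩) k hk

end Pool.Agent.MP_781439_al

end
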